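import Pool.Agent.Helper38.Flag.Contr

namespace Pool.H38.Flag

/-- Directed edges of the caterpillar with spine `(0,0),...,(n-1,0)` and leaves `(i,l+1)`,
`l < k i`, at `(i,0)`. -/
inductive Rel (n : ℕ) (k : ℕ → ℕ) : ℕ × ℕ → ℕ × ℕ → Prop
  | sp (i : ℕ) (h : i + 1 < n) : Rel n k (i, 0) (i + 1, 0)
  | lf (i l : ℕ) (h : i < n) (hl : l < k i) : Rel n k (i, 0) (i, l + 1)

theorem rel_sp {n : ℕ} {k : ℕ → ℕ} {p q : ℕ × ℕ} (h1 : p.2 = 0) (h2 : q.2 = 0)
    (h3 : q.1 = p.1 + 1) (h4 : q.1 < n) : Rel n k p q := by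
  obtain ⟨a, b⟩ := p; obtain ⟨a', b'⟩ := q
  simp only at h1 h2 h3 h4; subst h1; subst h2; subst h3
  exact Rel.sp a h4

theorem rel_lf {n : ℕ} {k : ℕ → ℕ} {p q : ℕ × ℕ} (h1 : p.2 = 0) (h2 : q.1 = p.1)
    (h3 : 0 < q.2) (h4 : q.1 < n) (h5 : q.2 ≤ k q.1) : Rel n k p q := by
  obtain ⟨a, b⟩ := p; obtain ⟨a', b'⟩ := q
  simp only at h1 h2 h3 h4 h5; subst h1; subst h2
  obtain ⟨l, rfl⟩ : ∃ l, b' = l + 1 := ⟨b' - 1, by omega⟩
  exact Rel.lf _ l h4 (by omega)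

theorem Rel.ne {n : ℕ} {k : ℕ → ℕ} {p q : ℕ × ℕ} (h : Rel n k p q) : p ≠ q := by
  cases h <;> simp

def cat (n : ℕ) (k : ℕ → ℕ) : SimpleGraph (ℕ × ℕ) where
  Adj p q := Rel n k p q ∨ Rel n k q p
  symm := ⟨fun _ _ h => h.symm⟩
  loopless := ⟨fun p h => by rcases h with h | h <;> exact h.ne rfl⟩

def col (c : ℕ) (p : ℕ × ℕ) : ℕ := (p.1 + (if p.2 = 0 then 0 else 1) + c) % 2

theorem col_rel {n : ℕ} {k : ℕ → ℕ} {p q : ℕ × ℕ} (h : Rel n k p q) (c : ℕ) :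
    col c q = (col c p + 1) % 2 ∧ col c p = (col c q + 1) % 2 := by
  cases h <;> simp [col] <;> omega

theorem col_adj {n : ℕ} {k : ℕ → ℕ} {p q : ℕ × ℕ} (h : (cat n k).Adj p q) (c : ℕ) :
    col c q = (col c p + 1) % 2 := by
  rcases h with h | h
  · exact (col_rel h c).1
  · exact (col_rel h c).2

theorem col_ne {n : ℕ} {k : ℕ → ℕ} {p q : ℕ × ℕ} (h : (cat n k).Adj p q) (c : ℕ) :
    col c q ≠ col c p := by
  rw [col_adj h c]; omega

theorem reach_proper {V : Type*} {G : SimpleGraph V} {χ : V → ℕ}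
    (h : ∀ u w, G.Adj u w → χ w ≠ χ u) {v w : V} : Reach G χ v w ↔ w = v := by
  constructor
  · intro hr
    induction hr with
    | refl => rfl
    | tail _ hbc _ => exact absurd (hbc.2.2.trans hbc.2.1.symm) (h _ _ hbc.1)
  · rintro rfl; exact Relation.ReflTransGen.refl

theorem recolour_proper {V : Type*} [DecidableEq V] {G : SimpleGraph V} {χ : V → ℕ}
    (h : ∀ u w, G.Adj u w → χ w ≠ χ u) (v : V) (c : ℕ) :
    recolour G χ v c = fun w => if w = v then c else χ w := by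
  funext w
  unfold recolour
  by_cases hw : w = v
  · rw [if_pos hw, if_pos (reach_proper h |>.2 hw)]
  · rw [if_neg hw, if_neg (fun hr => hw (reach_proper h |>.1 hr))]

/-- The colouring after the move at `v`. -/
def flip (c : ℕ) (v : ℕ × ℕ) : ℕ × ℕ → ℕ := fun w => if w = v then (col c v + 1) % 2 else col c w

theorem move_cat {n : ℕ} {k : ℕ → ℕ} {c : ℕ} {χ' : ℕ × ℕ → ℕ} (h : Move (cat n k) (col c) χ') :
    ∃ v u, (cat n k).Adj v u ∧ χ' = flip c v := by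
  obtain ⟨v, u, huv, _, rfl⟩ := h
  refine ⟨v, u, huv, ?_⟩
  rw [recolour_proper (fun a b hab => col_ne hab c)]
  funext w; simp only [flip]; rw [col_adj huv c]

theorem cat_move {n : ℕ} {k : ℕ → ℕ} {c : ℕ} {v u : ℕ × ℕ} (h : (cat n k).Adj v u) :
    Move (cat n k) (col c) (flip c v) := by
  refine ⟨v, u, h, col_ne h c, ?_⟩
  rw [recolour_proper (fun a b hab => col_ne hab c)]
  funext w; simp only [flip]; rw [col_adj h c]

theorem rel_bd {n : ℕ} {k : ℕ → ℕ} {p q : ℕ × ℕ} (h : Rel n k p q) :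
    (p.1 < n ∧ p.2 ≤ k p.1) ∧ (q.1 < n ∧ q.2 ≤ k q.1) := by
  cases h with
  | sp i h => exact ⟨⟨by simp only; omega, Nat.zero_le _⟩, ⟨h, Nat.zero_le _⟩⟩
  | lf i l h hl => exact ⟨⟨h, Nat.zero_le _⟩, ⟨h, hl⟩⟩

theorem adj_bd {n : ℕ} {k : ℕ → ℕ} {p : ℕ × ℕ} (h : ∃ q, (cat n k).Adj p q) :
    p.1 < n ∧ p.2 ≤ k p.1 := by
  obtain ⟨q, h | h⟩ := h
  · exact (rel_bd h).1
  · exact (rel_bd h).2

/-- constructor of contractions between caterpillars -/
theorem mk_contr {n n' : ℕ} {k k' : ℕ → ℕ} {χ ψ : ℕ × ℕ → ℕ} {f : ℕ × ℕ → ℕ × ℕ} (v0 : ℕ × ℕ)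
    (hcol : ∀ p : ℕ × ℕ, p.1 < n → p.2 ≤ k p.1 → χ p = ψ (f p))
    (hadj : ∀ p q, Rel n k p q → f p = f q ∨ (cat n' k').Adj (f p) (f q))
    (hlift : ∀ x y, Rel n' k' x y → ∃ u v, f u = x ∧ f v = y ∧ (cat n k).Adj u v)
    (hfib : ∀ u v : ℕ × ℕ, u.1 < n → u.2 ≤ k u.1 → v.1 < n → v.2 ≤ k v.1 → f u = f v →
      u = v ∨ ((u = v0 ∨ ((cat n k).Adj u v0 ∧ f u = f v0)) ∧
        (v = v0 ∨ ((cat n k).Adj v v0 ∧ f v = f v0)))) :
    Contr (cat n k) χ (cat n' k') ψ f := by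
  refine ⟨?_, ?_, ?_, ?_⟩
  · intro u w huw
    have := adj_bd ⟨w, huw⟩
    exact hcol u this.1 this.2
  · intro u w huw
    rcases huw with h | h
    · exact hadj u w h
    · rcases hadj w u h with h | h
      · exact Or.inl h.symm
      · exact Or.inr h.symm
  · intro x y hxy
    rcases hxy with h | h
    · exact hlift x y h
    · obtain ⟨u, v, hu, hv, huv⟩ := hlift y x h
      exact ⟨v, u, hv, hu, huv.symm⟩
  · intro u w hu hw hf
    have hu' := adj_bd hu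
    have hw' := adj_bd hw
    rcases hfib u w hu'.1 hu'.2 hw'.1 hw'.2 hf with h | ⟨h1, h2⟩
    · rw [h]
    · have r1 : Relation.ReflTransGen (fun a b => (cat n k).Adj a b ∧ f a = f b) u v0 := by
        rcases h1 with h1 | h1
        · rw [h1]
        · exact Relation.ReflTransGen.single h1
      have r2 : Relation.ReflTransGen (fun a b => (cat n k).Adj a b ∧ f a = f b) v0 w := by
        rcases h2 with h2 | h2
        · rw [h2]
        · exact Relation.ReflTransGen.single ⟨h2.1.symm, h2.2.symm⟩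
      exact r1.trans r2

end Pool.H38.Flag
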