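import Mathlib

namespace Pool.H38.Flag

variable {V W : Type*}

/-- `Reach G χ v w`: the vertex `w` lies in the monochromatic component of `v`. -/
def Reach (G : SimpleGraph V) (χ : V → ℕ) (v w : V) : Prop :=
  Relation.ReflTransGen (fun x y => G.Adj x y ∧ χ x = χ v ∧ χ y = χ v) v w

open Classical in
/-- Recolour the monochromatic component of `v` with the colour `c`. -/
noncomputable def recolour (G : SimpleGraph V) (χ : V → ℕ) (v : V) (c : ℕ) : V → ℕ :=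
  fun w => if Reach G χ v w then c else χ w

/-- A move of the flag colouring game. -/
def Move (G : SimpleGraph V) (χ χ' : V → ℕ) : Prop :=
  ∃ v u, G.Adj v u ∧ χ u ≠ χ v ∧ χ' = recolour G χ v (χ u)

/-- The player to move loses: the other player has an answer `reply χ'` to every move `χ'`,
after which the player to move again loses (an inductively defined winning strategy). -/
inductive Lost (G : SimpleGraph V) : (V → ℕ) → Prop
  | mk (χ : V → ℕ) (reply : (V → ℕ) → (V → ℕ))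
      (h1 : ∀ χ', Move G χ χ' → Move G χ' (reply χ'))
      (h2 : ∀ χ', Move G χ χ' → Lost G (reply χ')) : Lost G χ

theorem lost_mk {G : SimpleGraph V} (χ : V → ℕ)
    (h : ∀ χ', Move G χ χ' → ∃ χ'', Move G χ' χ'' ∧ Lost G χ'') : Lost G χ := by
  classical
  choose! r h1 h2 using h
  exact Lost.mk χ r h1 h2

theorem lost_ind {G : SimpleGraph V} {P : (V → ℕ) → Prop}
    (ih : ∀ χ, (∀ χ', Move G χ χ' → ∃ χ'', Move G χ' χ'' ∧ Lost G χ'' ∧ P χ'') → P χ)
    {χ : V → ℕ} (h : Lost G χ) : P χ := by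
  induction h with
  | mk χ r h1 h2 ih2 => exact ih χ fun χ' hm => ⟨r χ', h1 χ' hm, h2 χ' hm, ih2 χ' hm⟩

theorem lost_elim {G : SimpleGraph V} {χ : V → ℕ} (h : Lost G χ) :
    ∀ χ', Move G χ χ' → ∃ χ'', Move G χ' χ'' ∧ Lost G χ'' := by
  cases h with
  | mk _ r h1 h2 => exact fun χ' hm => ⟨r χ', h1 χ' hm, h2 χ' hm⟩

/-- The player to move wins. -/
def Won (G : SimpleGraph V) (χ : V → ℕ) : Prop := ∃ χ', Move G χ χ' ∧ Lost G χ'

theorem not_won_of_lost {G : SimpleGraph V} {χ : V → ℕ} (h : Lost G χ) : ¬ Won G χ := by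
  refine lost_ind (P := fun χ => ¬ Won G χ) ?_ h
  rintro χ ih ⟨χ', hm, hl⟩
  obtain ⟨χ'', hm', _, ih'⟩ := ih χ' hm
  obtain ⟨z, hz, hlz⟩ := lost_elim hl χ'' hm'
  exact ih' ⟨z, hz, hlz⟩

/-- Contraction of monochromatic pieces. -/
structure Contr (G : SimpleGraph V) (χ : V → ℕ) (H : SimpleGraph W) (ψ : W → ℕ) (f : V → W) :
    Prop where
  col : ∀ u v, G.Adj u v → χ u = ψ (f u)
  adj : ∀ u v, G.Adj u v → f u = f v ∨ H.Adj (f u) (f v)
  lift : ∀ x y, H.Adj x y → ∃ u v, f u = x ∧ f v = y ∧ G.Adj u v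
  fib : ∀ u v, (∃ w, G.Adj u w) → (∃ w, G.Adj v w) → f u = f v →
    Relation.ReflTransGen (fun a b => G.Adj a b ∧ f a = f b) u v

theorem fib_reach {G : SimpleGraph V} {χ : V → ℕ} {H : SimpleGraph W} {ψ : W → ℕ} {f : V → W}
    (h : Contr G χ H ψ f) {v a b : V} (ha : χ a = χ v)
    (hab : Relation.ReflTransGen (fun a b => G.Adj a b ∧ f a = f b) a b) (hr : Reach G χ v a) :
    Reach G χ v b ∧ χ b = χ v := by
  induction hab with
  | refl => exact ⟨hr, ha⟩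
  | tail _ hbc ih =>
    obtain ⟨h1, h2⟩ := ih
    have e : χ _ = χ _ := (h.col _ _ hbc.1).trans ((congrArg ψ hbc.2).trans
      (h.col _ _ hbc.1.symm).symm)
    refine ⟨Relation.ReflTransGen.tail h1 ⟨hbc.1, h2, e ▸ h2⟩, e ▸ h2⟩

theorem reach_push {G : SimpleGraph V} {χ : V → ℕ} {H : SimpleGraph W} {ψ : W → ℕ} {f : V → W}
    (h : Contr G χ H ψ f) {v w : V} (hr : Reach G χ v w) : Reach H ψ (f v) (f w) := by
  induction hr with
  | refl => exact Relation.ReflTransGen.refl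
  | @tail b c hb hbc ih =>
    obtain ⟨h1, h2, h3⟩ := hbc
    have hv : χ v = ψ (f v) := by
      rcases Relation.ReflTransGen.cases_head hb with hh | ⟨z, hz, _⟩
      · subst hh; exact h.col _ _ h1
      · exact h.col _ _ hz.1
    rcases h.adj _ _ h1 with h4 | h4
    · rw [← h4]; exact ih
    · refine Relation.ReflTransGen.tail ih ⟨h4, ?_, ?_⟩
      · rw [← h.col _ _ h1, h2, hv]
      · rw [← h.col _ _ h1.symm, h3, hv]

theorem reach_lift {G : SimpleGraph V} {χ : V → ℕ} {H : SimpleGraph W} {ψ : W → ℕ} {f : V → W}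
    (h : Contr G χ H ψ f) {v : V} (hv : ∃ w, G.Adj v w) {z : W} (hr : Reach H ψ (f v) z) :
    ∀ w, (∃ x, G.Adj w x) → f w = z → Reach G χ v w := by
  induction hr with
  | refl =>
    intro w hw hf
    exact (fib_reach h rfl (h.fib v w hv hw hf.symm) Relation.ReflTransGen.refl).1
  | @tail b c hb hbc ih =>
    intro w hw hf
    obtain ⟨h1, h2, h3⟩ := hbc
    obtain ⟨a, a', ha, ha', haa⟩ := h.lift _ _ h1
    obtain ⟨y, hy⟩ := hv
    have hra := ih a ⟨a', haa⟩ ha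
    have ea : χ a = χ v := by rw [h.col _ _ haa, ha, h2, h.col _ _ hy]
    have ea' : χ a' = χ v := by rw [h.col _ _ haa.symm, ha', h3, h.col _ _ hy]
    have hra' : Reach G χ v a' := Relation.ReflTransGen.tail hra ⟨haa, ea, ea'⟩
    exact (fib_reach h ea' (h.fib a' w ⟨a, haa.symm⟩ hw (ha'.trans hf.symm)) hra').1

theorem contr_recolour {G : SimpleGraph V} {χ : V → ℕ} {H : SimpleGraph W} {ψ : W → ℕ} {f : V → W}
    (h : Contr G χ H ψ f) {v : V} (hv : ∃ w, G.Adj v w) (c : ℕ) :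
    Contr G (recolour G χ v c) H (recolour H ψ (f v) c) f := by
  refine ⟨?_, h.adj, h.lift, h.fib⟩
  intro u w huw
  have : Reach G χ v u ↔ Reach H ψ (f v) (f u) :=
    ⟨reach_push h, fun hr => reach_lift h hv hr u ⟨w, huw⟩ rfl⟩
  unfold recolour
  by_cases hr : Reach G χ v u
  · rw [if_pos hr, if_pos (this.1 hr)]
  · rw [if_neg hr, if_neg (fun h' => hr (this.2 h')), h.col _ _ huw]

theorem move_push {G : SimpleGraph V} {χ χ' : V → ℕ} {H : SimpleGraph W} {ψ : W → ℕ} {f : V → W}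
    (h : Contr G χ H ψ f) (hm : Move G χ χ') : ∃ ψ', Move H ψ ψ' ∧ Contr G χ' H ψ' f := by
  obtain ⟨v, u, huv, hne, rfl⟩ := hm
  have e1 := h.col _ _ huv
  have e2 := h.col _ _ huv.symm
  refine ⟨recolour H ψ (f v) (ψ (f u)), ⟨f v, f u, ?_, ?_, rfl⟩, ?_⟩
  · rcases h.adj _ _ huv with h4 | h4
    · exact absurd (by rw [e1, e2, h4]) hne
    · exact h4
  · rw [← e1, ← e2]; exact hne
  · rw [← e2]; exact contr_recolour h ⟨u, huv⟩ _

theorem move_lift {G : SimpleGraph V} {χ : V → ℕ} {H : SimpleGraph W} {ψ ψ' : W → ℕ} {f : V → W}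
    (h : Contr G χ H ψ f) (hm : Move H ψ ψ') : ∃ χ', Move G χ χ' ∧ Contr G χ' H ψ' f := by
  obtain ⟨x, y, hxy, hne, rfl⟩ := hm
  obtain ⟨v, u, hv, hu, hvu⟩ := h.lift _ _ hxy
  have e1 := h.col _ _ hvu
  have e2 := h.col _ _ hvu.symm
  refine ⟨recolour G χ v (χ u), ⟨v, u, hvu, ?_, rfl⟩, ?_⟩
  · rw [e1, e2, hv, hu]; exact hne
  · have := contr_recolour h ⟨u, hvu⟩ (χ u)
    rw [hv, e2, hu] at this
    rw [e2, hu]; exact this

theorem lost_push {G : SimpleGraph V} {χ : V → ℕ} (hl : Lost G χ) {H : SimpleGraph W}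
    {f : V → W} : ∀ {ψ : W → ℕ}, Contr G χ H ψ f → Lost H ψ := by
  refine lost_ind (P := fun χ => ∀ {ψ : W → ℕ}, Contr G χ H ψ f → Lost H ψ) ?_ hl
  intro χ ih ψ h
  refine lost_mk ψ fun ψ' hm => ?_
  obtain ⟨χ', hm', h'⟩ := move_lift h hm
  obtain ⟨χ'', hm'', _, ih'⟩ := ih χ' hm'
  obtain ⟨ψ'', hmm, h''⟩ := move_push h' hm''
  exact ⟨ψ'', hmm, ih' h''⟩

theorem lost_lift {H : SimpleGraph W} {ψ : W → ℕ} (hl : Lost H ψ) {G : SimpleGraph V}
    {f : V → W} : ∀ {χ : V → ℕ}, Contr G χ H ψ f → Lost G χ := by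
  refine lost_ind (P := fun ψ => ∀ {χ : V → ℕ}, Contr G χ H ψ f → Lost G χ) ?_ hl
  intro ψ ih χ h
  refine lost_mk χ fun χ' hm => ?_
  obtain ⟨ψ', hm', h'⟩ := move_push h hm
  obtain ⟨ψ'', hm'', _, ih'⟩ := ih ψ' hm'
  obtain ⟨χ'', hmm, h''⟩ := move_lift h' hm''
  exact ⟨χ'', hmm, ih' h''⟩

theorem Contr.lost_iff {G : SimpleGraph V} {χ : V → ℕ} {H : SimpleGraph W} {ψ : W → ℕ} {f : V → W}
    (h : Contr G χ H ψ f) : Lost G χ ↔ Lost H ψ :=
  ⟨fun hl => lost_push hl h, fun hl => lost_lift hl h⟩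

theorem Contr.won_iff {G : SimpleGraph V} {χ : V → ℕ} {H : SimpleGraph W} {ψ : W → ℕ} {f : V → W}
    (h : Contr G χ H ψ f) : Won G χ ↔ Won H ψ := by
  constructor
  · rintro ⟨χ', hm, hl⟩
    obtain ⟨ψ', hm', h'⟩ := move_push h hm
    exact ⟨ψ', hm', h'.lost_iff.1 hl⟩
  · rintro ⟨ψ', hm, hl⟩
    obtain ⟨χ', hm', h'⟩ := move_lift h hm
    exact ⟨χ', hm', h'.lost_iff.2 hl⟩

end Pool.H38.Flag
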