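import Pool.Agent.Helper38.Flag.Rec

namespace Pool.H38.Flag

/-- The caterpillar with `n` spine vertices `(i, 0)`, `i < n`, and `ℓ i` leaves `(i, j)`,
`1 ≤ j ≤ ℓ i`, at the spine vertex `(i, 0)`. -/
def caterpillar {n : ℕ} (ℓ : Fin n → ℕ) : SimpleGraph (Σ i : Fin n, Fin (ℓ i + 1)) where
  Adj x y := (x.2.val = 0 ∧ y.2.val = 0 ∧ (x.1.val + 1 = y.1.val ∨ y.1.val + 1 = x.1.val)) ∨
    (x.1 = y.1 ∧ ((x.2.val = 0 ∧ y.2.val ≠ 0) ∨ (x.2.val ≠ 0 ∧ y.2.val = 0)))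
  symm := ⟨by
    intro x y h
    rcases h with ⟨h1, h2, h3⟩ | ⟨h1, h2⟩
    · exact Or.inl ⟨h2, h1, h3.symm⟩
    · exact Or.inr ⟨h1.symm, by tauto⟩⟩
  loopless := ⟨by
    intro x h
    rcases h with ⟨_, _, h3⟩ | ⟨_, h2⟩
    · omega
    · tauto⟩

/-- The proper colouring of the caterpillar with the two colours `0`, `1`: spine vertices
alternate, a leaf has the other colour than its neighbour. -/
def twoColouring {n : ℕ} (ℓ : Fin n → ℕ) : (Σ i : Fin n, Fin (ℓ i + 1)) → ℕ :=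
  fun x => if x.2.val = 0 then x.1.val % 2 else (x.1.val + 1) % 2

def kOf {n : ℕ} (ℓ : Fin n → ℕ) : ℕ → ℕ := fun m => if h : m < n then ℓ ⟨m, h⟩ else 0

theorem contr_caterpillar {n : ℕ} (ℓ : Fin n → ℕ) :
    Contr (caterpillar ℓ) (twoColouring ℓ) (cat n (kOf ℓ)) (col 0)
      (fun x => (x.1.val, x.2.val)) := by
  have hk : ∀ i : Fin n, kOf ℓ i.val = ℓ i := by
    intro i; simp [kOf, i.2]
  refine ⟨?_, ?_, ?_, ?_⟩
  · intro u _ _
    simp only [twoColouring, col]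
    split_ifs <;> simp
  · rintro ⟨i, l⟩ ⟨j, m⟩ h
    right
    rcases h with ⟨h1, h2, h3⟩ | ⟨h1, h2⟩
    · simp only at h1 h2 h3
      rcases h3 with h3 | h3
      · exact Or.inl (rel_sp h1 h2 h3.symm j.2)
      · exact Or.inr (rel_sp h2 h1 h3.symm i.2)
    · simp only at h1 h2
      subst h1
      rcases h2 with ⟨h2, h3⟩ | ⟨h2, h3⟩
      · refine Or.inl (rel_lf h2 rfl (Nat.pos_of_ne_zero h3) i.2 ?_)
        have := m.2
        simp only [hk]; omega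
      · refine Or.inr (rel_lf h3 rfl (Nat.pos_of_ne_zero h2) i.2 ?_)
        have := l.2
        simp only [hk]; omega
  · intro x y hxy
    have main : ∀ p q, Rel n (kOf ℓ) p q → ∃ u v : (Σ i : Fin n, Fin (ℓ i + 1)),
        (u.1.val, u.2.val) = p ∧ (v.1.val, v.2.val) = q ∧ (caterpillar ℓ).Adj u v := by
      intro p q h
      cases h with
      | sp i h =>
        exact ⟨⟨⟨i, by omega⟩, 0⟩, ⟨⟨i + 1, h⟩, 0⟩, rfl, rfl, Or.inl ⟨rfl, rfl, Or.inl rfl⟩⟩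
      | lf i l h hl =>
        have hl' : l < ℓ ⟨i, h⟩ := by have := hk ⟨i, h⟩; simp only at this; omega
        exact ⟨⟨⟨i, h⟩, 0⟩, ⟨⟨i, h⟩, ⟨l + 1, by omega⟩⟩, rfl, rfl,
          Or.inr ⟨rfl, Or.inl ⟨rfl, by simp⟩⟩⟩
    rcases hxy with h | h
    · exact main x y h
    · obtain ⟨u, v, hu, hv, huv⟩ := main y x h
      exact ⟨v, u, hv, hu, huv.symm⟩
  · rintro ⟨i, l⟩ ⟨j, m⟩ _ _ h
    simp only [Prod.mk.injEq] at h
    obtain ⟨h1, h2⟩ := h
    obtain rfl : i = j := Fin.ext h1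
    obtain rfl : l = m := Fin.ext h2
    exact Relation.ReflTransGen.refl

theorem lost_caterpillar {n : ℕ} (ℓ : Fin n → ℕ) {k : ℕ → ℕ} (hk : ∀ i : Fin n, k i.val = ℓ i) :
    (Lost (caterpillar ℓ) (twoColouring ℓ) ↔ LoF n k) ∧
    (Won (caterpillar ℓ) (twoColouring ℓ) ↔ ¬ LoF n k) := by
  have hc := contr_caterpillar ℓ
  rw [cat_congr (k2 := k) (fun m hm => by
    have := hk ⟨m, hm⟩
    simp only at this
    simp [kOf, hm, this])] at hc
  rw [hc.lost_iff, hc.won_iff]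
  rcases det n _ k rfl with h | h
  · exact ⟨⟨fun _ => h, fun _ => h 0⟩, ⟨fun hw => absurd hw (not_won_of_lost (h 0)),
      fun hn => absurd h hn⟩⟩
  · have hn : ¬ LoF n k := (woF_iff n k).1 h
    exact ⟨⟨fun hl => absurd (h 0) (not_won_of_lost hl), fun h' => absurd h' hn⟩,
      ⟨fun _ => hn, fun _ => h 0⟩⟩

end Pool.H38.Flag
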