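import Pool.Agent.Helper38.Flag.Graph

namespace Pool.H38.Flag

def Lo (L : List ℕ) : Prop := LoF L.length (fun m => L.getD m 0)

theorem lo_eq (L : List ℕ) {n : ℕ} {k : ℕ → ℕ} (hn : L.length = n)
    (h : ∀ m, m < n → k m = L.getD m 0) : LoF n k ↔ Lo L := by
  subst hn; exact loF_congr h

theorem loF_one (k : ℕ → ℕ) : LoF 1 k ↔ (0 < k 0 → ¬ LoF 1 (dec k 0)) ∧
    (0 < k 0 → ¬ LoF 1 (fun _ => 0)) := by
  rw [loF_iff]
  constructor
  · intro h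
    exact ⟨fun h0 => h _ _ (Opt.leaf 1 k 0 (by omega) h0), fun h0 => h _ _ (Opt.one k h0)⟩
  · rintro ⟨h1, h2⟩ n' k' ho
    cases ho with
    | leaf _ _ i hi hk =>
      obtain rfl : i = 0 := by omega
      exact h1 hk
    | one _ h => exact h2 h

theorem loF_two (n : ℕ) (k : ℕ → ℕ) : LoF (n + 2) k ↔
    (∀ i, i < n + 2 → 0 < k i → ¬ LoF (n + 2) (dec k i)) ∧
    ¬ LoF (n + 1) (fun m => k (m + 1)) ∧ ¬ LoF (n + 1) k ∧
    ∀ j, j < n → ¬ LoF n (kMid k j) := by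
  rw [loF_iff]
  constructor
  · intro h
    exact ⟨fun i hi h0 => h _ _ (Opt.leaf _ k i hi h0), h _ _ (Opt.left n k),
      h _ _ (Opt.right n k), fun j hj => h _ _ (Opt.mid n k j hj)⟩
  · rintro ⟨h1, h2, h3, h4⟩ n' k' ho
    cases ho with
    | leaf _ _ i hi hk => exact h1 i hi hk
    | left _ _ => exact h2
    | right _ _ => exact h3
    | mid _ _ j hj => exact h4 j hj

theorem lo1 (x : ℕ) : Lo [x] ↔ (0 < x → ¬ Lo [x - 1]) ∧ (0 < x → ¬ Lo [0]) := by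
  have e : Lo [x] ↔ LoF 1 (fun m => [x].getD m 0) := Iff.rfl
  have e2 := loF_one (fun m => [x].getD m 0)
  have a0 : LoF 1 (dec (fun m => [x].getD m 0) 0) ↔ Lo [x - 1] := lo_eq _ rfl
    (by intro m hm; interval_cases m <;> simp [dec])
  have b : LoF 1 (fun _ => 0) ↔ Lo [0] := lo_eq _ rfl
    (by intro m hm; interval_cases m <;> simp)
  rw [e, e2]
  constructor
  · rintro ⟨h1, h2⟩
    exact ⟨fun hx hl => h1 hx (a0.2 hl), fun hx hl => h2 hx (b.2 hl)⟩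
  · rintro ⟨h1, h2⟩
    exact ⟨fun hx hl => h1 hx (a0.1 hl), fun hx hl => h2 hx (b.1 hl)⟩

theorem lo2 (x1 x2 : ℕ) : Lo [x1, x2] ↔
    (0 < x1 → ¬ Lo [x1 - 1, x2]) ∧
    (0 < x2 → ¬ Lo [x1, x2 - 1]) ∧
    ¬ Lo [x2] ∧
    ¬ Lo [x1] := by
  have e : Lo [x1, x2] ↔ LoF 2 (fun m => [x1, x2].getD m 0) := Iff.rfl
  have e2 := loF_two 0 (fun m => [x1, x2].getD m 0)
  simp only [Nat.reduceAdd] at e2
  have a0 : LoF 2 (dec (fun m => [x1, x2].getD m 0) 0) ↔ Lo [x1 - 1, x2] := lo_eq _ rfl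
    (by intro m hm; interval_cases m <;> simp [dec])
  have a1 : LoF 2 (dec (fun m => [x1, x2].getD m 0) 1) ↔ Lo [x1, x2 - 1] := lo_eq _ rfl
    (by intro m hm; interval_cases m <;> simp [dec])
  have b : LoF 1 (fun m => (fun m => [x1, x2].getD m 0) (m + 1)) ↔ Lo [x2] := lo_eq _ rfl
    (by intro m hm; interval_cases m <;> simp)
  have c : LoF 1 (fun m => [x1, x2].getD m 0) ↔ Lo [x1] := lo_eq _ rfl
    (by intro m hm; interval_cases m <;> simp)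
  rw [e, e2]
  constructor
  · rintro ⟨h1, h2, h3, h4⟩
    exact ⟨fun hx hl => h1 0 (by omega) hx (a0.2 hl),
      fun hx hl => h1 1 (by omega) hx (a1.2 hl),
      fun hl => h2 (b.2 hl),
      fun hl => h3 (c.2 hl)⟩
  · rintro ⟨p0, p1, q2, q3⟩
    refine ⟨?_, fun hl => q2 (b.1 hl), fun hl => q3 (c.1 hl), ?_⟩
    · intro i hi h0 hl
      interval_cases i
      · exact p0 h0 (a0.1 hl)
      · exact p1 h0 (a1.1 hl)
    · intro j hj; omega

theorem lo3 (x1 x2 x3 : ℕ) : Lo [x1, x2, x3] ↔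
    (0 < x1 → ¬ Lo [x1 - 1, x2, x3]) ∧
    (0 < x2 → ¬ Lo [x1, x2 - 1, x3]) ∧
    (0 < x3 → ¬ Lo [x1, x2, x3 - 1]) ∧
    ¬ Lo [x2, x3] ∧
    ¬ Lo [x1, x2] ∧
    ¬ Lo [x1 + x3] := by
  have e : Lo [x1, x2, x3] ↔ LoF 3 (fun m => [x1, x2, x3].getD m 0) := Iff.rfl
  have e2 := loF_two 1 (fun m => [x1, x2, x3].getD m 0)
  simp only [Nat.reduceAdd] at e2
  have a0 : LoF 3 (dec (fun m => [x1, x2, x3].getD m 0) 0) ↔ Lo [x1 - 1, x2, x3] := lo_eq _ rfl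
    (by intro m hm; interval_cases m <;> simp [dec])
  have a1 : LoF 3 (dec (fun m => [x1, x2, x3].getD m 0) 1) ↔ Lo [x1, x2 - 1, x3] := lo_eq _ rfl
    (by intro m hm; interval_cases m <;> simp [dec])
  have a2 : LoF 3 (dec (fun m => [x1, x2, x3].getD m 0) 2) ↔ Lo [x1, x2, x3 - 1] := lo_eq _ rfl
    (by intro m hm; interval_cases m <;> simp [dec])
  have b : LoF 2 (fun m => (fun m => [x1, x2, x3].getD m 0) (m + 1)) ↔ Lo [x2, x3] := lo_eq _ rfl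
    (by intro m hm; interval_cases m <;> simp)
  have c : LoF 2 (fun m => [x1, x2, x3].getD m 0) ↔ Lo [x1, x2] := lo_eq _ rfl
    (by intro m hm; interval_cases m <;> simp)
  have d0 : LoF 1 (kMid (fun m => [x1, x2, x3].getD m 0) 0) ↔ Lo [x1 + x3] := lo_eq _ rfl
    (by intro m hm; interval_cases m <;> simp [kMid])
  rw [e, e2]
  constructor
  · rintro ⟨h1, h2, h3, h4⟩
    exact ⟨fun hx hl => h1 0 (by omega) hx (a0.2 hl),
      fun hx hl => h1 1 (by omega) hx (a1.2 hl),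
      fun hx hl => h1 2 (by omega) hx (a2.2 hl),
      fun hl => h2 (b.2 hl),
      fun hl => h3 (c.2 hl),
      fun hl => h4 0 (by omega) (d0.2 hl)⟩
  · rintro ⟨p0, p1, p2, q2, q3, r0⟩
    refine ⟨?_, fun hl => q2 (b.1 hl), fun hl => q3 (c.1 hl), ?_⟩
    · intro i hi h0 hl
      interval_cases i
      · exact p0 h0 (a0.1 hl)
      · exact p1 h0 (a1.1 hl)
      · exact p2 h0 (a2.1 hl)
    · intro j hj hl
      interval_cases j
      · exact r0 (d0.1 hl)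

theorem lo4 (x1 x2 x3 x4 : ℕ) : Lo [x1, x2, x3, x4] ↔
    (0 < x1 → ¬ Lo [x1 - 1, x2, x3, x4]) ∧
    (0 < x2 → ¬ Lo [x1, x2 - 1, x3, x4]) ∧
    (0 < x3 → ¬ Lo [x1, x2, x3 - 1, x4]) ∧
    (0 < x4 → ¬ Lo [x1, x2, x3, x4 - 1]) ∧
    ¬ Lo [x2, x3, x4] ∧
    ¬ Lo [x1, x2, x3] ∧
    ¬ Lo [x1 + x3, x4] ∧
    ¬ Lo [x1, x2 + x4] := by
  have e : Lo [x1, x2, x3, x4] ↔ LoF 4 (fun m => [x1, x2, x3, x4].getD m 0) := Iff.rfl
  have e2 := loF_two 2 (fun m => [x1, x2, x3, x4].getD m 0)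
  simp only [Nat.reduceAdd] at e2
  have a0 : LoF 4 (dec (fun m => [x1, x2, x3, x4].getD m 0) 0) ↔ Lo [x1 - 1, x2, x3, x4] := lo_eq _ rfl
    (by intro m hm; interval_cases m <;> simp [dec])
  have a1 : LoF 4 (dec (fun m => [x1, x2, x3, x4].getD m 0) 1) ↔ Lo [x1, x2 - 1, x3, x4] := lo_eq _ rfl
    (by intro m hm; interval_cases m <;> simp [dec])
  have a2 : LoF 4 (dec (fun m => [x1, x2, x3, x4].getD m 0) 2) ↔ Lo [x1, x2, x3 - 1, x4] := lo_eq _ rfl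
    (by intro m hm; interval_cases m <;> simp [dec])
  have a3 : LoF 4 (dec (fun m => [x1, x2, x3, x4].getD m 0) 3) ↔ Lo [x1, x2, x3, x4 - 1] := lo_eq _ rfl
    (by intro m hm; interval_cases m <;> simp [dec])
  have b : LoF 3 (fun m => (fun m => [x1, x2, x3, x4].getD m 0) (m + 1)) ↔ Lo [x2, x3, x4] := lo_eq _ rfl
    (by intro m hm; interval_cases m <;> simp)
  have c : LoF 3 (fun m => [x1, x2, x3, x4].getD m 0) ↔ Lo [x1, x2, x3] := lo_eq _ rfl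
    (by intro m hm; interval_cases m <;> simp)
  have d0 : LoF 2 (kMid (fun m => [x1, x2, x3, x4].getD m 0) 0) ↔ Lo [x1 + x3, x4] := lo_eq _ rfl
    (by intro m hm; interval_cases m <;> simp [kMid])
  have d1 : LoF 2 (kMid (fun m => [x1, x2, x3, x4].getD m 0) 1) ↔ Lo [x1, x2 + x4] := lo_eq _ rfl
    (by intro m hm; interval_cases m <;> simp [kMid])
  rw [e, e2]
  constructor
  · rintro ⟨h1, h2, h3, h4⟩
    exact ⟨fun hx hl => h1 0 (by omega) hx (a0.2 hl),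
      fun hx hl => h1 1 (by omega) hx (a1.2 hl),
      fun hx hl => h1 2 (by omega) hx (a2.2 hl),
      fun hx hl => h1 3 (by omega) hx (a3.2 hl),
      fun hl => h2 (b.2 hl),
      fun hl => h3 (c.2 hl),
      fun hl => h4 0 (by omega) (d0.2 hl),
      fun hl => h4 1 (by omega) (d1.2 hl)⟩
  · rintro ⟨p0, p1, p2, p3, q2, q3, r0, r1⟩
    refine ⟨?_, fun hl => q2 (b.1 hl), fun hl => q3 (c.1 hl), ?_⟩
    · intro i hi h0 hl
      interval_cases i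
      · exact p0 h0 (a0.1 hl)
      · exact p1 h0 (a1.1 hl)
      · exact p2 h0 (a2.1 hl)
      · exact p3 h0 (a3.1 hl)
    · intro j hj hl
      interval_cases j
      · exact r0 (d0.1 hl)
      · exact r1 (d1.1 hl)

theorem lo5 (x1 x2 x3 x4 x5 : ℕ) : Lo [x1, x2, x3, x4, x5] ↔
    (0 < x1 → ¬ Lo [x1 - 1, x2, x3, x4, x5]) ∧
    (0 < x2 → ¬ Lo [x1, x2 - 1, x3, x4, x5]) ∧
    (0 < x3 → ¬ Lo [x1, x2, x3 - 1, x4, x5]) ∧
    (0 < x4 → ¬ Lo [x1, x2, x3, x4 - 1, x5]) ∧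
    (0 < x5 → ¬ Lo [x1, x2, x3, x4, x5 - 1]) ∧
    ¬ Lo [x2, x3, x4, x5] ∧
    ¬ Lo [x1, x2, x3, x4] ∧
    ¬ Lo [x1 + x3, x4, x5] ∧
    ¬ Lo [x1, x2 + x4, x5] ∧
    ¬ Lo [x1, x2, x3 + x5] := by
  have e : Lo [x1, x2, x3, x4, x5] ↔ LoF 5 (fun m => [x1, x2, x3, x4, x5].getD m 0) := Iff.rfl
  have e2 := loF_two 3 (fun m => [x1, x2, x3, x4, x5].getD m 0)
  simp only [Nat.reduceAdd] at e2
  have a0 : LoF 5 (dec (fun m => [x1, x2, x3, x4, x5].getD m 0) 0) ↔ Lo [x1 - 1, x2, x3, x4, x5] := lo_eq _ rfl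
    (by intro m hm; interval_cases m <;> simp [dec])
  have a1 : LoF 5 (dec (fun m => [x1, x2, x3, x4, x5].getD m 0) 1) ↔ Lo [x1, x2 - 1, x3, x4, x5] := lo_eq _ rfl
    (by intro m hm; interval_cases m <;> simp [dec])
  have a2 : LoF 5 (dec (fun m => [x1, x2, x3, x4, x5].getD m 0) 2) ↔ Lo [x1, x2, x3 - 1, x4, x5] := lo_eq _ rfl
    (by intro m hm; interval_cases m <;> simp [dec])
  have a3 : LoF 5 (dec (fun m => [x1, x2, x3, x4, x5].getD m 0) 3) ↔ Lo [x1, x2, x3, x4 - 1, x5] := lo_eq _ rfl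
    (by intro m hm; interval_cases m <;> simp [dec])
  have a4 : LoF 5 (dec (fun m => [x1, x2, x3, x4, x5].getD m 0) 4) ↔ Lo [x1, x2, x3, x4, x5 - 1] := lo_eq _ rfl
    (by intro m hm; interval_cases m <;> simp [dec])
  have b : LoF 4 (fun m => (fun m => [x1, x2, x3, x4, x5].getD m 0) (m + 1)) ↔ Lo [x2, x3, x4, x5] := lo_eq _ rfl
    (by intro m hm; interval_cases m <;> simp)
  have c : LoF 4 (fun m => [x1, x2, x3, x4, x5].getD m 0) ↔ Lo [x1, x2, x3, x4] := lo_eq _ rfl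
    (by intro m hm; interval_cases m <;> simp)
  have d0 : LoF 3 (kMid (fun m => [x1, x2, x3, x4, x5].getD m 0) 0) ↔ Lo [x1 + x3, x4, x5] := lo_eq _ rfl
    (by intro m hm; interval_cases m <;> simp [kMid])
  have d1 : LoF 3 (kMid (fun m => [x1, x2, x3, x4, x5].getD m 0) 1) ↔ Lo [x1, x2 + x4, x5] := lo_eq _ rfl
    (by intro m hm; interval_cases m <;> simp [kMid])
  have d2 : LoF 3 (kMid (fun m => [x1, x2, x3, x4, x5].getD m 0) 2) ↔ Lo [x1, x2, x3 + x5] := lo_eq _ rfl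
    (by intro m hm; interval_cases m <;> simp [kMid])
  rw [e, e2]
  constructor
  · rintro ⟨h1, h2, h3, h4⟩
    exact ⟨fun hx hl => h1 0 (by omega) hx (a0.2 hl),
      fun hx hl => h1 1 (by omega) hx (a1.2 hl),
      fun hx hl => h1 2 (by omega) hx (a2.2 hl),
      fun hx hl => h1 3 (by omega) hx (a3.2 hl),
      fun hx hl => h1 4 (by omega) hx (a4.2 hl),
      fun hl => h2 (b.2 hl),
      fun hl => h3 (c.2 hl),
      fun hl => h4 0 (by omega) (d0.2 hl),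
      fun hl => h4 1 (by omega) (d1.2 hl),
      fun hl => h4 2 (by omega) (d2.2 hl)⟩
  · rintro ⟨p0, p1, p2, p3, p4, q2, q3, r0, r1, r2⟩
    refine ⟨?_, fun hl => q2 (b.1 hl), fun hl => q3 (c.1 hl), ?_⟩
    · intro i hi h0 hl
      interval_cases i
      · exact p0 h0 (a0.1 hl)
      · exact p1 h0 (a1.1 hl)
      · exact p2 h0 (a2.1 hl)
      · exact p3 h0 (a3.1 hl)
      · exact p4 h0 (a4.1 hl)
    · intro j hj hl
      interval_cases j
      · exact r0 (d0.1 hl)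
      · exact r1 (d1.1 hl)
      · exact r2 (d2.1 hl)

end Pool.H38.Flag
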