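import Pool.Agent.Helper38.Flag.Cat

namespace Pool.H38.Flag

/-- removing one leaf at `i` -/
def dec (k : ℕ → ℕ) (i : ℕ) : ℕ → ℕ := fun m => if m = i then k i - 1 else k m

def fLeaf (i l : ℕ) (p : ℕ × ℕ) : ℕ × ℕ :=
  if p.1 = i ∧ p.2 = l + 1 then (i, 0) else if p.1 = i ∧ l + 1 < p.2 then (i, p.2 - 1) else p

theorem contr_leaf {n : ℕ} {k : ℕ → ℕ} {i l : ℕ} (hi : i < n) (hl : l < k i) (c : ℕ) :
    Contr (cat n k) (flip c (i, l + 1)) (cat n (dec k i)) (col c) (fLeaf i l) := by
  refine mk_contr (i, l + 1) ?_ ?_ ?_ ?_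
  · rintro ⟨a, b⟩ ha hb
    simp only [flip, fLeaf, col, Prod.mk.injEq]
    split_ifs <;> simp_all <;> omega
  · intro p q h
    cases h with
    | sp m h =>
      right
      have e1 : fLeaf i l (m, 0) = (m, 0) := by simp [fLeaf]
      have e2 : fLeaf i l (m + 1, 0) = (m + 1, 0) := by simp [fLeaf]
      rw [e1, e2]
      exact Or.inl (Rel.sp m h)
    | lf m j h hj =>
      have e1 : fLeaf i l (m, 0) = (m, 0) := by simp [fLeaf]
      rw [e1]
      by_cases hm : m = i
      · subst hm
        rcases lt_trichotomy j l with h1 | h1 | h1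
        · right
          have e2 : fLeaf m l (m, j + 1) = (m, j + 1) := by
            simp only [fLeaf]; rw [if_neg (by omega), if_neg (by omega)]
          rw [e2]
          exact Or.inl (rel_lf rfl rfl (by simp) h (by simp only [dec, if_true]; omega))
        · left
          subst h1
          simp [fLeaf]
        · right
          have e2 : fLeaf m l (m, j + 1) = (m, j) := by
            simp only [fLeaf]; rw [if_neg (by omega), if_pos ⟨by trivial, by omega⟩]; rfl
          rw [e2]
          exact Or.inl (rel_lf rfl rfl (by simp only; omega) h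
            (by simp only [dec, if_true]; omega))
      · right
        have e2 : fLeaf i l (m, j + 1) = (m, j + 1) := by
          simp only [fLeaf]; rw [if_neg (by simp [hm]), if_neg (by simp [hm])]
        rw [e2]
        exact Or.inl (rel_lf rfl rfl (by simp) h (by simp only [dec, if_neg hm]; omega))
  · intro x y h
    cases h with
    | sp m h =>
      exact ⟨(m, 0), (m + 1, 0), by simp [fLeaf], by simp [fLeaf], Or.inl (Rel.sp m h)⟩
    | lf m j h hj =>
      by_cases hm : m = i
      · subst hm
        simp only [dec, if_true] at hj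
        by_cases h1 : j < l
        · refine ⟨(m, 0), (m, j + 1), by simp [fLeaf], ?_, Or.inl (Rel.lf m j h (by omega))⟩
          simp only [fLeaf]; rw [if_neg (by omega), if_neg (by omega)]
        · refine ⟨(m, 0), (m, j + 1 + 1), by simp [fLeaf], ?_,
            Or.inl (Rel.lf m (j + 1) h (by omega))⟩
          simp only [fLeaf]; rw [if_neg (by omega), if_pos ⟨by trivial, by omega⟩]; rfl
      · simp only [dec, if_neg hm] at hj
        refine ⟨(m, 0), (m, j + 1), by simp [fLeaf], ?_, Or.inl (Rel.lf m j h hj)⟩
        simp only [fLeaf]; rw [if_neg (by simp [hm]), if_neg (by simp [hm])]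
  · rintro ⟨a, b⟩ ⟨a', b'⟩ ha hb ha' hb' hf
    simp only at ha hb ha' hb'
    by_cases h1 : a = i ∧ b = l + 1
    · obtain ⟨rfl, rfl⟩ := h1
      by_cases h2 : a' = a ∧ b' = l + 1
      · obtain ⟨rfl, rfl⟩ := h2; exact Or.inl rfl
      · right
        have e1 : fLeaf a l (a, l + 1) = (a, 0) := by simp [fLeaf]
        rw [e1] at hf ⊢
        have hb0 : a' = a ∧ b' = 0 := by
          simp only [fLeaf] at hf
          rw [if_neg h2] at hf
          split_ifs at hf with h3
          · simp only [Prod.mk.injEq] at hf; omega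
          · simp only [Prod.mk.injEq] at hf; omega
        obtain ⟨rfl, rfl⟩ := hb0
        exact ⟨Or.inl rfl, Or.inr ⟨Or.inl (Rel.lf _ _ ha hl), by simp [fLeaf]⟩⟩
    · by_cases h2 : a' = i ∧ b' = l + 1
      · obtain ⟨rfl, rfl⟩ := h2
        right
        have e1 : fLeaf a' l (a', l + 1) = (a', 0) := by simp [fLeaf]
        rw [e1] at hf ⊢
        have hb0 : a = a' ∧ b = 0 := by
          simp only [fLeaf] at hf
          rw [if_neg h1] at hf
          split_ifs at hf with h3
          · simp only [Prod.mk.injEq] at hf; omega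
          · simp only [Prod.mk.injEq] at hf; omega
        obtain ⟨rfl, rfl⟩ := hb0
        exact ⟨Or.inr ⟨Or.inl (Rel.lf _ _ ha' hl), by simp [fLeaf]⟩, Or.inl rfl⟩
      · left
        simp only [fLeaf] at hf
        rw [if_neg h1, if_neg h2] at hf
        split_ifs at hf with h3 h4 h4 <;> simp only [Prod.mk.injEq] at hf ⊢ <;> omega

/-- left end -/
def fLeft (p : ℕ × ℕ) : ℕ × ℕ := if p.1 = 0 then (0, 0) else (p.1 - 1, p.2)

theorem contr_left {n : ℕ} {k : ℕ → ℕ} (c : ℕ) :
    Contr (cat (n + 2) k) (flip c (0, 0)) (cat (n + 1) (fun m => k (m + 1))) (col (c + 1))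
      fLeft := by
  refine mk_contr (0, 0) ?_ ?_ ?_ ?_
  · rintro ⟨a, b⟩ ha hb
    simp only [flip, fLeft, col, Prod.mk.injEq]
    split_ifs <;> simp_all <;> omega
  · intro p q h
    cases h with
    | sp m h =>
      cases m with
      | zero => left; simp [fLeft]
      | succ m =>
        right
        have e1 : fLeft (m + 1, 0) = (m, 0) := by simp [fLeft]
        have e2 : fLeft (m + 1 + 1, 0) = (m + 1, 0) := by simp [fLeft]
        rw [e1, e2]
        exact Or.inl (Rel.sp m (by omega))
    | lf m j h hj =>
      cases m with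
      | zero => left; simp [fLeft]
      | succ m =>
        right
        have e1 : fLeft (m + 1, 0) = (m, 0) := by simp [fLeft]
        have e2 : fLeft (m + 1, j + 1) = (m, j + 1) := by simp [fLeft]
        rw [e1, e2]
        exact Or.inl (Rel.lf m j (by omega) hj)
  · intro x y h
    cases h with
    | sp m h =>
      exact ⟨(m + 1, 0), (m + 1 + 1, 0), by simp [fLeft], by simp [fLeft],
        Or.inl (Rel.sp (m + 1) (by omega))⟩
    | lf m j h hj =>
      exact ⟨(m + 1, 0), (m + 1, j + 1), by simp [fLeft], by simp [fLeft],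
        Or.inl (Rel.lf (m + 1) j (by omega) hj)⟩
  · rintro ⟨a, b⟩ ⟨a', b'⟩ ha hb ha' hb' hf
    simp only at ha hb ha' hb'
    have key : ∀ a b : ℕ, a < n + 2 → b ≤ k a → fLeft (a, b) = (0, 0) →
        ((a, b) = ((0 : ℕ), (0 : ℕ)) ∨ ((cat (n + 2) k).Adj (a, b) (0, 0) ∧
          fLeft (a, b) = fLeft (0, 0))) := by
      intro a b ha hb h
      by_cases h0 : a = 0
      · subst h0
        by_cases hb0 : b = 0
        · left; rw [hb0]
        · right
          exact ⟨Or.inr (rel_lf rfl rfl (by simp only; omega) ha hb), by simp [fLeft]⟩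
      · simp only [fLeft, if_neg h0, Prod.mk.injEq] at h
        obtain ⟨h1, h2⟩ := h
        right
        exact ⟨Or.inr (rel_sp rfl h2 (by simp only; omega) ha), by
          simp only [fLeft, if_neg h0, if_true, Prod.mk.injEq]; exact ⟨h1, h2⟩⟩
    by_cases h0 : fLeft (a, b) = (0, 0)
    · right
      exact ⟨key a b ha hb h0, key a' b' ha' hb' (hf ▸ h0)⟩
    · left
      have h0' : fLeft (a', b') ≠ (0, 0) := hf ▸ h0
      by_cases h1 : a = 0
      · exact absurd (by simp [fLeft, h1]) h0
      by_cases h2 : a' = 0
      · exact absurd (by simp [fLeft, h2]) h0'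
      simp only [fLeft, if_neg h1, if_neg h2, Prod.mk.injEq] at hf ⊢
      omega

/-- right end -/
def fRight (n : ℕ) (p : ℕ × ℕ) : ℕ × ℕ := if p.1 = n + 1 then (n, 0) else p

theorem contr_right {n : ℕ} {k : ℕ → ℕ} (c : ℕ) :
    Contr (cat (n + 2) k) (flip c (n + 1, 0)) (cat (n + 1) k) (col c) (fRight n) := by
  refine mk_contr (n + 1, 0) ?_ ?_ ?_ ?_
  · rintro ⟨a, b⟩ ha hb
    simp only [flip, fRight, col, Prod.mk.injEq]
    split_ifs <;> simp_all <;> omega
  · intro p q h
    cases h with
    | sp m h =>
      by_cases hm : m = n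
      · subst hm; left; simp [fRight]
      · right
        have e1 : fRight n (m, 0) = (m, 0) := by
          simp only [fRight]; rw [if_neg (by omega)]
        have e2 : fRight n (m + 1, 0) = (m + 1, 0) := by
          simp only [fRight]; rw [if_neg (by omega)]
        rw [e1, e2]
        exact Or.inl (Rel.sp m (by omega))
    | lf m j h hj =>
      by_cases hm : m = n + 1
      · subst hm; left; simp [fRight]
      · right
        have e1 : fRight n (m, 0) = (m, 0) := by
          simp only [fRight]; rw [if_neg (by omega)]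
        have e2 : fRight n (m, j + 1) = (m, j + 1) := by
          simp only [fRight]; rw [if_neg (by omega)]
        rw [e1, e2]
        exact Or.inl (Rel.lf m j (by omega) hj)
  · intro x y h
    cases h with
    | sp m h =>
      exact ⟨(m, 0), (m + 1, 0), by simp only [fRight]; rw [if_neg (by omega)],
        by simp only [fRight]; rw [if_neg (by omega)], Or.inl (Rel.sp m (by omega))⟩
    | lf m j h hj =>
      exact ⟨(m, 0), (m, j + 1), by simp only [fRight]; rw [if_neg (by omega)],
        by simp only [fRight]; rw [if_neg (by omega)], Or.inl (Rel.lf m j (by omega) hj)⟩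
  · rintro ⟨a, b⟩ ⟨a', b'⟩ ha hb ha' hb' hf
    simp only at ha hb ha' hb'
    have key : ∀ a b : ℕ, a < n + 2 → b ≤ k a → fRight n (a, b) = (n, 0) →
        ((a, b) = (n + 1, (0 : ℕ)) ∨ ((cat (n + 2) k).Adj (a, b) (n + 1, 0) ∧
          fRight n (a, b) = fRight n (n + 1, 0))) := by
      intro a b ha hb h
      by_cases h0 : a = n + 1
      · subst h0
        by_cases hb0 : b = 0
        · left; rw [hb0]
        · right
          exact ⟨Or.inr (rel_lf rfl rfl (by simp only; omega) ha hb), by simp [fRight]⟩
      · simp only [fRight, if_neg h0, Prod.mk.injEq] at h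
        obtain ⟨h1, h2⟩ := h
        right
        exact ⟨Or.inl (rel_sp h2 rfl (by simp only; omega) (by simp only; omega)), by
          simp only [fRight, if_neg h0, if_true, Prod.mk.injEq]; exact ⟨h1, h2⟩⟩
    by_cases h0 : fRight n (a, b) = (n, 0)
    · right
      exact ⟨key a b ha hb h0, key a' b' ha' hb' (hf ▸ h0)⟩
    · left
      have h0' : fRight n (a', b') ≠ (n, 0) := hf ▸ h0
      by_cases h1 : a = n + 1
      · exact absurd (by simp [fRight, h1]) h0
      by_cases h2 : a' = n + 1
      · exact absurd (by simp [fRight, h2]) h0'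
      simpa only [fRight, if_neg h1, if_neg h2] using hf

end Pool.H38.Flag
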