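import Pool.Agent.Helper38.Flag.Maps

namespace Pool.H38.Flag

def fMid (k : ℕ → ℕ) (j : ℕ) (p : ℕ × ℕ) : ℕ × ℕ :=
  if p.1 = j + 1 then (j, 0)
  else if p.1 = j + 2 then (if p.2 = 0 then (j, 0) else (j, k j + p.2))
  else if j + 2 < p.1 then (p.1 - 2, p.2) else p

def kMid (k : ℕ → ℕ) (j : ℕ) : ℕ → ℕ := fun m =>
  if m < j then k m else if m = j then k j + k (j + 2) else k (m + 2)

theorem fMid_lt {k : ℕ → ℕ} {j a b : ℕ} (h : a ≤ j) : fMid k j (a, b) = (a, b) := by
  simp only [fMid]; rw [if_neg (by omega), if_neg (by omega), if_neg (by omega)]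

theorem fMid_one {k : ℕ → ℕ} {j b : ℕ} : fMid k j (j + 1, b) = (j, 0) := by simp [fMid]

theorem fMid_two {k : ℕ → ℕ} {j : ℕ} : fMid k j (j + 2, 0) = (j, 0) := by simp [fMid]

theorem fMid_two' {k : ℕ → ℕ} {j b : ℕ} : fMid k j (j + 2, b + 1) = (j, k j + (b + 1)) := by
  simp [fMid]

theorem fMid_gt {k : ℕ → ℕ} {j a b : ℕ} (h : j < a) : fMid k j (a + 2, b) = (a, b) := by
  simp only [fMid]; rw [if_neg (by omega), if_neg (by omega), if_pos (by omega)]; rfl

theorem kMid_lt {k : ℕ → ℕ} {j m : ℕ} (h : m < j) : kMid k j m = k m := by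
  simp only [kMid]; rw [if_pos h]

theorem kMid_eq {k : ℕ → ℕ} {j : ℕ} : kMid k j j = k j + k (j + 2) := by
  simp [kMid]

theorem kMid_gt {k : ℕ → ℕ} {j m : ℕ} (h : j < m) : kMid k j m = k (m + 2) := by
  simp only [kMid]; rw [if_neg (by omega), if_neg (by omega)]

theorem contr_mid {n : ℕ} {k : ℕ → ℕ} {j : ℕ} (hj : j < n) (c : ℕ) :
    Contr (cat (n + 2) k) (flip c (j + 1, 0)) (cat n (kMid k j)) (col c) (fMid k j) := by
  refine mk_contr (j + 1, 0) ?_ ?_ ?_ ?_
  · rintro ⟨a, b⟩ ha hb
    simp only [flip, fMid, col, Prod.mk.injEq]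
    split_ifs <;> simp_all <;> omega
  · intro p q h
    cases h with
    | sp m h =>
      rcases lt_or_ge m j with h1 | h1
      · right
        rw [fMid_lt (by omega), fMid_lt (by omega)]
        exact Or.inl (Rel.sp m (by omega))
      · obtain ⟨d, rfl⟩ := Nat.exists_eq_add_of_le h1
        rcases d with _ | _ | _ | d
        · left; rw [fMid_lt (by omega)]; simp only [Nat.add_zero]; rw [fMid_one]
        · left; rw [show j + (0 + 1) + 1 = j + 2 by omega, show j + (0 + 1) = j + 1 by omega,
            fMid_one, fMid_two]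
        · right
          rw [show j + (0 + 1 + 1) + 1 = (j + 1) + 2 by omega,
            show j + (0 + 1 + 1) = j + 2 by omega, fMid_two, fMid_gt (by omega)]
          exact Or.inl (Rel.sp j (by omega))
        · right
          rw [show j + (d + 1 + 1 + 1) + 1 = (j + d + 2) + 2 by omega,
            show j + (d + 1 + 1 + 1) = (j + d + 1) + 2 by omega, fMid_gt (by omega),
            fMid_gt (by omega)]
          exact Or.inl (Rel.sp (j + d + 1) (by omega))
    | lf m l h hl =>
      rcases lt_or_ge m j with h1 | h1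
      · right
        rw [fMid_lt (by omega), fMid_lt (by omega)]
        exact Or.inl (Rel.lf m l (by omega) (by rw [kMid_lt h1]; exact hl))
      · obtain ⟨d, rfl⟩ := Nat.exists_eq_add_of_le h1
        rcases d with _ | _ | _ | d
        · right
          rw [fMid_lt (by omega), fMid_lt (by omega)]
          simp only [Nat.add_zero] at hl ⊢
          exact Or.inl (Rel.lf j l hj (by rw [kMid_eq]; omega))
        · left; rw [show j + (0 + 1) = j + 1 by omega, fMid_one, fMid_one]
        · right
          rw [show j + (0 + 1 + 1) = j + 2 by omega] at hl ⊢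
          rw [fMid_two, fMid_two']
          exact Or.inl (rel_lf rfl rfl (by simp) hj (by simp only [kMid_eq]; omega))
        · right
          rw [show j + (d + 1 + 1 + 1) = (j + d + 1) + 2 by omega] at hl ⊢
          rw [fMid_gt (by omega), fMid_gt (by omega)]
          exact Or.inl (Rel.lf _ l (by omega) (by rw [kMid_gt (by omega)]; exact hl))
  · intro x y h
    cases h with
    | sp m h =>
      rcases lt_trichotomy m j with h1 | h1 | h1
      · exact ⟨(m, 0), (m + 1, 0), fMid_lt (by omega), fMid_lt (by omega),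
          Or.inl (Rel.sp m (by omega))⟩
      · subst h1
        exact ⟨(m + 2, 0), (m + 1 + 2, 0), fMid_two, fMid_gt (by omega),
          Or.inl (Rel.sp (m + 2) (by omega))⟩
      · exact ⟨(m + 2, 0), (m + 1 + 2, 0), fMid_gt h1, fMid_gt (by omega),
          Or.inl (Rel.sp (m + 2) (by omega))⟩
    | lf m l h hl =>
      rcases lt_trichotomy m j with h1 | h1 | h1
      · rw [kMid_lt h1] at hl
        exact ⟨(m, 0), (m, l + 1), fMid_lt (by omega), fMid_lt (by omega),
          Or.inl (Rel.lf m l (by omega) hl)⟩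
      · subst h1
        rw [kMid_eq] at hl
        by_cases h2 : l < k m
        · exact ⟨(m, 0), (m, l + 1), fMid_lt le_rfl, fMid_lt le_rfl,
            Or.inl (Rel.lf m l (by omega) h2)⟩
        · refine ⟨(m + 2, 0), (m + 2, (l - k m) + 1), fMid_two, ?_,
            Or.inl (Rel.lf (m + 2) (l - k m) (by omega) (by omega))⟩
          rw [fMid_two', Prod.mk.injEq]
          exact ⟨rfl, by omega⟩
      · rw [kMid_gt h1] at hl
        exact ⟨(m + 2, 0), (m + 2, l + 1), fMid_gt h1, fMid_gt h1,
          Or.inl (Rel.lf (m + 2) l (by omega) hl)⟩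
  · rintro ⟨a, b⟩ ⟨a', b'⟩ ha hb ha' hb' hf
    simp only at ha hb ha' hb'
    have key : ∀ a b : ℕ, a < n + 2 → b ≤ k a → fMid k j (a, b) = (j, 0) →
        ((a, b) = (j + 1, (0 : ℕ)) ∨ ((cat (n + 2) k).Adj (a, b) (j + 1, 0) ∧
          fMid k j (a, b) = fMid k j (j + 1, 0))) := by
      intro a b ha hb h
      have hh : fMid k j (j + 1, 0) = (j, 0) := fMid_one
      rw [hh, h]
      by_cases h0 : a = j + 1
      · subst h0
        by_cases hb0 : b = 0
        · left; rw [hb0]
        · right
          exact ⟨Or.inr (rel_lf rfl rfl (by simp only; omega) ha hb), rfl⟩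
      · right
        refine ⟨?_, rfl⟩
        by_cases h1 : a = j + 2
        · subst h1
          by_cases hb0 : b = 0
          · subst hb0
            exact Or.inr (rel_sp rfl rfl (by simp only) ha)
          · obtain ⟨l, rfl⟩ : ∃ l, b = l + 1 := ⟨b - 1, by omega⟩
            rw [fMid_two', Prod.mk.injEq] at h
            omega
        · rcases lt_or_ge (j + 2) a with h2 | h2
          · obtain ⟨d, rfl⟩ : ∃ d, a = d + 2 := ⟨a - 2, by omega⟩
            rw [fMid_gt (by omega), Prod.mk.injEq] at h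
            omega
          · rw [fMid_lt (by omega), Prod.mk.injEq] at h
            obtain ⟨rfl, rfl⟩ := h
            exact Or.inl (rel_sp rfl rfl (by simp only) (by simp only; omega))
    by_cases h0 : fMid k j (a, b) = (j, 0)
    · right
      exact ⟨key a b ha hb h0, key a' b' ha' hb' (hf ▸ h0)⟩
    · left
      have h0' : fMid k j (a', b') ≠ (j, 0) := hf ▸ h0
      have hcase : ∀ a b : ℕ, fMid k j (a, b) ≠ (j, 0) → b ≤ k a →
          ∃ x y, fMid k j (a, b) = (x, y) ∧
          ((a ≤ j ∧ x = a ∧ y = b ∧ (a = j → b ≤ k j)) ∨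
          (a = j + 2 ∧ 0 < b ∧ x = j ∧ y = k j + b) ∨
          (j + 2 < a ∧ x = a - 2 ∧ y = b)) := by
        intro a b h hb
        rcases lt_trichotomy a (j + 1) with h1 | h1 | h1
        · exact ⟨a, b, fMid_lt (by omega), Or.inl ⟨by omega, rfl, rfl, by rintro rfl; exact hb⟩⟩
        · subst h1; exact absurd fMid_one h
        · by_cases h2 : a = j + 2
          · subst h2
            by_cases hb0 : b = 0
            · subst hb0; exact absurd fMid_two h
            · obtain ⟨l, rfl⟩ : ∃ l, b = l + 1 := ⟨b - 1, by omega⟩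
              exact ⟨_, _, fMid_two', Or.inr (Or.inl ⟨rfl, by omega, rfl, rfl⟩)⟩
          · obtain ⟨d, rfl⟩ : ∃ d, a = d + 2 := ⟨a - 2, by omega⟩
            exact ⟨_, _, fMid_gt (by omega), Or.inr (Or.inr ⟨by omega, by omega, rfl⟩)⟩
      obtain ⟨x, y, e1, h1⟩ := hcase a b h0 hb
      obtain ⟨x', y', e2, h2⟩ := hcase a' b' h0' hb'
      rw [e1, e2, Prod.mk.injEq] at hf
      obtain ⟨hf1, hf2⟩ := hf
      rw [Prod.mk.injEq]
      omega

/-- the star: all leaves are absorbed -/
theorem contr_one {k : ℕ → ℕ} (c : ℕ) :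
    Contr (cat 1 k) (flip c (0, 0)) (cat 1 (fun _ => 0)) (col (c + 1)) (fun _ => (0, 0)) := by
  refine mk_contr (0, 0) ?_ ?_ ?_ ?_
  · rintro ⟨a, b⟩ ha hb
    simp only [flip, col, Prod.mk.injEq]
    split_ifs <;> simp_all <;> omega
  · intro p q _; left; rfl
  · intro x y h
    cases h with
    | sp m h => omega
    | lf m l h hl => omega
  · rintro ⟨a, b⟩ ⟨a', b'⟩ ha hb ha' hb' hf
    simp only at ha hb ha' hb'
    have key : ∀ a b : ℕ, a < 1 → b ≤ k a →
        ((a, b) = ((0 : ℕ), (0 : ℕ)) ∨ ((cat 1 k).Adj (a, b) (0, 0) ∧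
          ((0 : ℕ), (0 : ℕ)) = (0, 0))) := by
      intro a b ha hb
      obtain rfl : a = 0 := by omega
      by_cases hb0 : b = 0
      · left; rw [hb0]
      · right
        exact ⟨Or.inr (rel_lf rfl rfl (by simp only; omega) ha hb), rfl⟩
    right
    exact ⟨key a b ha hb, key a' b' ha' hb'⟩

end Pool.H38.Flag
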