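import Pool.Agent.Helper38.Flag.Lists
import Pool.Agent.FC.RowB11Defs

namespace Pool.H38.Flag

open Pool.Agent.FC

theorem lo_opts : ∀ L : List ℕ, L ≠ [] → L.length ≤ 5 → (Lo L ↔ ∀ M ∈ opts L, ¬ Lo M) := by
  intro L hne hlen
  rcases L with _ | ⟨x1, _ | ⟨x2, _ | ⟨x3, _ | ⟨x4, _ | ⟨x5, _ | ⟨x6, L⟩⟩⟩⟩⟩⟩
  · exact absurd rfl hne
  · rw [lo1]
    by_cases h1 : 0 < x1 <;>
    simp [opts, leafMoves, h1]
  · rw [lo2]
    by_cases h1 : 0 < x1 <;> by_cases h2 : 0 < x2 <;>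
    simp [opts, leafMoves, innerMoves, h1, h2]
  · rw [lo3]
    by_cases h1 : 0 < x1 <;> by_cases h2 : 0 < x2 <;> by_cases h3 : 0 < x3 <;>
    simp [opts, leafMoves, innerMoves, h1, h2, h3]
  · rw [lo4]
    by_cases h1 : 0 < x1 <;> by_cases h2 : 0 < x2 <;> by_cases h3 : 0 < x3 <;>
    by_cases h4 : 0 < x4 <;>
    simp [opts, leafMoves, innerMoves, h1, h2, h3, h4]
  · rw [lo5]
    by_cases h1 : 0 < x1 <;> by_cases h2 : 0 < x2 <;> by_cases h3 : 0 < x3 <;>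
    by_cases h4 : 0 < x4 <;> by_cases h5 : 0 < x5 <;>
    simp [opts, leafMoves, innerMoves, h1, h2, h3, h4, h5]
  · simp only [List.length_cons] at hlen; omega

end Pool.H38.Flag
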