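import Pool.Agent.Helper38.Flag.Mid

namespace Pool.H38.Flag

/-- options of the caterpillar position `(n, k)` -/
inductive Opt : ℕ → (ℕ → ℕ) → ℕ → (ℕ → ℕ) → Prop
  | leaf (n : ℕ) (k : ℕ → ℕ) (i : ℕ) (hi : i < n) (hk : 0 < k i) : Opt n k n (dec k i)
  | one (k : ℕ → ℕ) (h : 0 < k 0) : Opt 1 k 1 (fun _ => 0)
  | left (n : ℕ) (k : ℕ → ℕ) : Opt (n + 2) k (n + 1) (fun m => k (m + 1))
  | right (n : ℕ) (k : ℕ → ℕ) : Opt (n + 2) k (n + 1) k
  | mid (n : ℕ) (k : ℕ → ℕ) (j : ℕ) (h : j < n) : Opt (n + 2) k n (kMid k j)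

theorem opt_of_move {n : ℕ} {k : ℕ → ℕ} {c : ℕ} {χ' : ℕ × ℕ → ℕ}
    (h : Move (cat n k) (col c) χ') :
    ∃ n' k' c' f, Opt n k n' k' ∧ Contr (cat n k) χ' (cat n' k') (col c') f := by
  obtain ⟨v, u, huv, rfl⟩ := move_cat h
  have hb := adj_bd ⟨u, huv⟩
  obtain ⟨a, b⟩ := v
  simp only at hb
  obtain ⟨ha, hb⟩ := hb
  rcases b with _ | l
  · rcases n with _ | _ | n
    · omega
    · obtain rfl : a = 0 := by omega
      have hk : 0 < k 0 := by
        rcases huv with h | h
        · cases h with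
          | sp i h => omega
          | lf i l h hl => omega
        · cases h
      exact ⟨_, _, _, _, Opt.one k hk, contr_one c⟩
    · rcases Nat.eq_zero_or_pos a with h0 | h0
      · subst h0
        exact ⟨_, _, _, _, Opt.left n k, contr_left c⟩
      · rcases Nat.lt_or_ge n a with h1 | h1
        · obtain rfl : a = n + 1 := by omega
          exact ⟨_, _, _, _, Opt.right n k, contr_right c⟩
        · obtain ⟨j, rfl⟩ : ∃ j, a = j + 1 := ⟨a - 1, by omega⟩
          exact ⟨_, _, _, _, Opt.mid n k j (by omega), contr_mid (by omega) c⟩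
  · exact ⟨_, _, _, _, Opt.leaf n k a ha (by omega), contr_leaf ha (by omega) c⟩

theorem move_of_opt {n n' : ℕ} {k k' : ℕ → ℕ} (h : Opt n k n' k') (c : ℕ) :
    ∃ χ' c' f, Move (cat n k) (col c) χ' ∧ Contr (cat n k) χ' (cat n' k') (col c') f := by
  cases h with
  | leaf n k i hi hk =>
    exact ⟨_, _, _, cat_move (v := (i, 0 + 1)) (u := (i, 0)) (Or.inr (Rel.lf i 0 hi hk)),
      contr_leaf hi hk c⟩
  | one k h =>
    exact ⟨_, _, _, cat_move (v := (0, 0)) (u := (0, 0 + 1)) (Or.inl (Rel.lf 0 0 (by omega) h)),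
      contr_one c⟩
  | left n k =>
    exact ⟨_, _, _, cat_move (v := (0, 0)) (u := (0 + 1, 0)) (Or.inl (Rel.sp 0 (by omega))),
      contr_left c⟩
  | right n k =>
    exact ⟨_, _, _, cat_move (v := (n + 1, 0)) (u := (n, 0)) (Or.inr (Rel.sp n (by omega))),
      contr_right c⟩
  | mid n k j h =>
    exact ⟨_, _, _, cat_move (v := (j + 1, 0)) (u := (j, 0)) (Or.inr (Rel.sp j (by omega))),
      contr_mid h c⟩

def LoF (n : ℕ) (k : ℕ → ℕ) : Prop := ∀ c, Lost (cat n k) (col c)

def WoF (n : ℕ) (k : ℕ → ℕ) : Prop := ∀ c, Won (cat n k) (col c)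

theorem det : ∀ (n s : ℕ) (k : ℕ → ℕ), (∑ i ∈ Finset.range n, k i) = s → LoF n k ∨ WoF n k := by
  intro n
  induction n using Nat.strong_induction_on with
  | _ n ihn =>
    intro s
    induction s using Nat.strong_induction_on with
    | _ s ihs =>
      intro k hs
      have hopt : ∀ n' k', Opt n k n' k' → LoF n' k' ∨ WoF n' k' := by
        intro n' k' ho
        cases ho with
        | leaf n k i hi hk =>
          refine ihs _ ?_ (dec k i) rfl
          rw [← hs]
          refine Finset.sum_lt_sum (fun m _ => ?_) ⟨i, Finset.mem_range.2 hi, ?_⟩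
          · simp only [dec]; split_ifs with h
            · subst h; omega
            · exact le_rfl
          · simp only [dec, if_true]; omega
        | one k h =>
          refine ihs 0 ?_ (fun _ => 0) (by simp)
          rw [← hs]; simpa using h
        | left n k => exact ihn (n + 1) (by omega) _ _ rfl
        | right n k => exact ihn (n + 1) (by omega) _ _ rfl
        | mid _ _ j h => exact ihn _ (by omega) _ _ rfl
      by_cases hex : ∃ n' k', Opt n k n' k' ∧ LoF n' k'
      · right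
        obtain ⟨n', k', ho, hl⟩ := hex
        intro c
        obtain ⟨χ', c', f, hm, hc⟩ := move_of_opt ho c
        exact ⟨χ', hm, hc.lost_iff.2 (hl c')⟩
      · left
        intro c
        refine lost_mk _ fun χ' hm => ?_
        obtain ⟨n', k', c', f, ho, hc⟩ := opt_of_move hm
        rcases hopt n' k' ho with h | h
        · exact absurd ⟨n', k', ho, h⟩ hex
        · exact hc.won_iff.2 (h c')

theorem loF_iff (n : ℕ) (k : ℕ → ℕ) : LoF n k ↔ ∀ n' k', Opt n k n' k' → ¬ LoF n' k' := by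
  constructor
  · intro h n' k' ho hl
    obtain ⟨χ', c', f, hm, hc⟩ := move_of_opt ho 0
    exact not_won_of_lost (h 0) ⟨χ', hm, hc.lost_iff.2 (hl c')⟩
  · intro h
    rcases det n _ k rfl with hd | hd
    · exact hd
    · exfalso
      obtain ⟨χ', hm, hl⟩ := hd 0
      obtain ⟨n', k', c', f, ho, hc⟩ := opt_of_move hm
      rcases det n' _ k' rfl with hd' | hd'
      · exact h n' k' ho hd'
      · exact not_won_of_lost (hc.lost_iff.1 hl) (hd' c')

theorem woF_iff (n : ℕ) (k : ℕ → ℕ) : WoF n k ↔ ¬ LoF n k := by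
  constructor
  · intro h hl; exact not_won_of_lost (hl 0) (h 0)
  · intro h; exact (det n _ k rfl).resolve_left h

theorem rel_congr {n : ℕ} {k k2 : ℕ → ℕ} (h : ∀ m, m < n → k m = k2 m) {p q : ℕ × ℕ}
    (hr : Rel n k p q) : Rel n k2 p q := by
  cases hr with
  | sp i hi => exact Rel.sp i hi
  | lf i l hi hl => exact Rel.lf i l hi (by rw [← h i hi]; exact hl)

theorem cat_congr {n : ℕ} {k k2 : ℕ → ℕ} (h : ∀ m, m < n → k m = k2 m) : cat n k = cat n k2 := by
  ext p q
  constructor
  · rintro (hr | hr)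
    · exact Or.inl (rel_congr h hr)
    · exact Or.inr (rel_congr h hr)
  · rintro (hr | hr)
    · exact Or.inl (rel_congr (fun m hm => (h m hm).symm) hr)
    · exact Or.inr (rel_congr (fun m hm => (h m hm).symm) hr)

theorem loF_congr {n : ℕ} {k k2 : ℕ → ℕ} (h : ∀ m, m < n → k m = k2 m) : LoF n k ↔ LoF n k2 := by
  unfold LoF; rw [cat_congr h]

end Pool.H38.Flag
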