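import Pool.Agent.Helper38.Flag.Graph

namespace Pool.H38.Flag

theorem acyclic_of_parent {V : Type*} {G : SimpleGraph V} (par : V → V) (r : V → ℕ)
    (h : ∀ x y, G.Adj x y → (y = par x ∧ r y < r x) ∨ (x = par y ∧ r x < r y)) :
    G.IsAcyclic := by
  classical
  intro v c hc
  obtain ⟨x, hx, hmax⟩ := (c.support.toFinset).exists_max_image r ⟨v, by simp⟩
  rw [List.mem_toFinset] at hx
  have hc' := hc.rotate hx
  have h1 : G.Adj x (c.rotate x hx).snd := (c.rotate x hx).adj_snd hc'.not_nil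
  have h2 : G.Adj (c.rotate x hx).penultimate x := (c.rotate x hx).adj_penultimate hc'.not_nil
  have hmem : ∀ y, y ∈ (c.rotate x hx).support → r y ≤ r x := by
    intro y hy
    refine hmax y ?_
    rw [List.mem_toFinset]
    exact (SimpleGraph.Walk.mem_support_rotate_iff c x hx).1 hy
  have m1 : r (c.rotate x hx).snd ≤ r x := hmem _ (SimpleGraph.Walk.getVert_mem_support _ _)
  have m2 : r (c.rotate x hx).penultimate ≤ r x :=
    hmem _ (SimpleGraph.Walk.getVert_mem_support _ _)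
  have e1 : (c.rotate x hx).snd = par x := by
    rcases h _ _ h1 with h | h
    · exact h.1
    · omega
  have e2 : (c.rotate x hx).penultimate = par x := by
    rcases h _ _ h2 with h | h
    · omega
    · exact h.1
  exact hc'.snd_ne_penultimate (e1.trans e2.symm)

theorem connected_of_parent {V : Type*} {G : SimpleGraph V} (root : V) (par : V → V) (r : V → ℕ)
    (h : ∀ x, x ≠ root → G.Adj x (par x) ∧ r (par x) < r x) : G.Connected := by
  have key : ∀ m x, r x ≤ m → G.Reachable x root := by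
    intro m
    induction m with
    | zero =>
      intro x hx
      by_cases hr : x = root
      · rw [hr]
      · have := (h x hr).2; omega
    | succ m ih =>
      intro x hx
      by_cases hr : x = root
      · rw [hr]
      · exact (h x hr).1.reachable.trans (ih _ (by have := (h x hr).2; omega))
  have : Nonempty V := ⟨root⟩
  exact ⟨fun x y => (key _ x le_rfl).trans (key _ y le_rfl).symm⟩

def parC {n : ℕ} (ℓ : Fin (n + 1) → ℕ) (x : Σ i : Fin (n + 1), Fin (ℓ i + 1)) :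
    Σ i : Fin (n + 1), Fin (ℓ i + 1) :=
  if x.2.val = 0 then ⟨⟨x.1.val - 1, by have := x.1.2; omega⟩, 0⟩ else ⟨x.1, 0⟩

def rC {n : ℕ} (ℓ : Fin (n + 1) → ℕ) (x : Σ i : Fin (n + 1), Fin (ℓ i + 1)) : ℕ :=
  if x.2.val = 0 then x.1.val else x.1.val + 1

theorem parC_pos {n : ℕ} {ℓ : Fin (n + 1) → ℕ} {x : Σ i : Fin (n + 1), Fin (ℓ i + 1)}
    (h : x.2.val = 0) : (parC ℓ x).1.val = x.1.val - 1 ∧ (parC ℓ x).2.val = 0 := by
  unfold parC; rw [if_pos h]; exact ⟨rfl, rfl⟩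

theorem parC_neg {n : ℕ} {ℓ : Fin (n + 1) → ℕ} {x : Σ i : Fin (n + 1), Fin (ℓ i + 1)}
    (h : x.2.val ≠ 0) : (parC ℓ x).1 = x.1 ∧ (parC ℓ x).2.val = 0 := by
  unfold parC; rw [if_neg h]; exact ⟨rfl, rfl⟩

theorem rC_pos {n : ℕ} {ℓ : Fin (n + 1) → ℕ} {x : Σ i : Fin (n + 1), Fin (ℓ i + 1)}
    (h : x.2.val = 0) : rC ℓ x = x.1.val := by
  unfold rC; rw [if_pos h]

theorem rC_neg {n : ℕ} {ℓ : Fin (n + 1) → ℕ} {x : Σ i : Fin (n + 1), Fin (ℓ i + 1)}
    (h : x.2.val ≠ 0) : rC ℓ x = x.1.val + 1 := by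
  unfold rC; rw [if_neg h]

theorem sig_ext {n : ℕ} {ℓ : Fin (n + 1) → ℕ} {x y : Σ i : Fin (n + 1), Fin (ℓ i + 1)}
    (h1 : x.1.val = y.1.val) (h2 : x.2.val = y.2.val) : x = y := by
  obtain ⟨i, l⟩ := x; obtain ⟨j, m⟩ := y
  simp only at h1 h2
  obtain rfl : i = j := Fin.ext h1
  obtain rfl : l = m := Fin.ext h2
  rfl

theorem isTree_caterpillar {n : ℕ} (ℓ : Fin (n + 1) → ℕ) : (caterpillar ℓ).IsTree := by
  refine ⟨?_, ?_⟩
  · refine connected_of_parent ⟨0, 0⟩ (parC ℓ) (rC ℓ) ?_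
    intro x hx
    by_cases h2 : x.2.val = 0
    · have h1 : x.1.val ≠ 0 := fun h1 => hx (sig_ext h1 h2)
      obtain ⟨p1, p2⟩ := parC_pos h2
      refine ⟨Or.inl ⟨h2, p2, Or.inr ?_⟩, ?_⟩
      · rw [p1]; omega
      · rw [rC_pos h2, rC_pos p2, p1]; omega
    · obtain ⟨p1, p2⟩ := parC_neg h2
      refine ⟨Or.inr ⟨p1.symm, Or.inr ⟨h2, p2⟩⟩, ?_⟩
      rw [rC_neg h2, rC_pos p2, p1]; omega
  · refine acyclic_of_parent (parC ℓ) (rC ℓ) ?_
    intro x y hxy
    rcases hxy with ⟨h1, h2, h3⟩ | ⟨h1, h2⟩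
    · obtain ⟨p1, p2⟩ := parC_pos h1
      obtain ⟨q1, q2⟩ := parC_pos h2
      rcases h3 with h3 | h3
      · right
        refine ⟨sig_ext ?_ ?_, ?_⟩
        · rw [q1]; omega
        · rw [q2]; exact h1
        · rw [rC_pos h1, rC_pos h2]; omega
      · left
        refine ⟨sig_ext ?_ ?_, ?_⟩
        · rw [p1]; omega
        · rw [p2]; exact h2
        · rw [rC_pos h1, rC_pos h2]; omega
    · rcases h2 with ⟨h2, h3⟩ | ⟨h2, h3⟩
      · right
        obtain ⟨q1, q2⟩ := parC_neg h3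
        refine ⟨sig_ext ?_ ?_, ?_⟩
        · rw [q1, h1]
        · rw [q2]; exact h2
        · rw [rC_pos h2, rC_neg h3, h1]; omega
      · left
        obtain ⟨q1, q2⟩ := parC_neg h2
        refine ⟨sig_ext ?_ ?_, ?_⟩
        · rw [q1, h1]
        · rw [q2]; exact h3
        · rw [rC_pos h3, rC_neg h2, h1]; omega

theorem twoColouring_ne {n : ℕ} (ℓ : Fin n → ℕ) (x y : Σ i : Fin n, Fin (ℓ i + 1))
    (h : (caterpillar ℓ).Adj x y) : twoColouring ℓ x ≠ twoColouring ℓ y := by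
  rcases h with ⟨h1, h2, h3⟩ | ⟨h1, h2⟩
  · simp only [twoColouring, if_pos h1, if_pos h2]; omega
  · rcases h2 with ⟨h2, h3⟩ | ⟨h2, h3⟩
    · simp only [twoColouring, if_pos h2, if_neg h3, h1]; omega
    · simp only [twoColouring, if_pos h3, if_neg h2, h1]; omega

end Pool.H38.Flag
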